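import Pool.Agent.TH12.Hopf.Final

set_option autoImplicit false

/-! Over every field there is a Hopf algebra which is finitely generated as an algebra and whose
antipode is not injective. -/

namespace Pool.Agent.Results.MP_8f6377_al.NonInjectiveAntipode

open Pool.Agent.TH12.Hopf

theorem result (k : Type) [Field k] :
    ∃ (H : Type) (_ : Ring H) (_ : HopfAlgebra k H),
      Algebra.FiniteType k H ∧
        ¬ Function.Injective (HopfAlgebraStruct.antipode k : H →ₗ[k] H) := by
  refine ⟨Hv k, inferInstance, hopf (Fv k), finiteType, ?_⟩
  intro h
  apply cv_ne (k := k)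
  apply h
  rw [map_zero]
  exact anti_cv

end Pool.Agent.Results.MP_8f6377_al.NonInjectiveAntipode
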